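import Pool.Agent.Y18.JT.Char2
import Pool.Agent.Y702.Stm

/-!
`S_CHAR2` of helper702: the number of points of `y² + y = x³ + x²` over the field with `2 ^ (2 ^ j)`
elements.
-/

set_option autoImplicit false

open Finset

namespace Pool.Agent.Y18.JT

open Pool.Agent.H82R3.EK (luc luc_eq)

lemma luc_mul8 (m : ℕ) : luc (-2) 2 (8 * m) = 2 * 16 ^ m := by
  have h := luc_eq (a := -2) (q := 2) (α := -1 + Complex.I) (β := -1 - Complex.I)
    (by push_cast; ring) (by push_cast; linear_combination (-1 : ℂ) * Complex.I_sq) (8 * m)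
  have h1 : (-1 + Complex.I) ^ 8 = 16 := by
    have e1 : (-1 + Complex.I) ^ 2 = -2 * Complex.I := by linear_combination Complex.I_sq
    have e2 : (-1 + Complex.I) ^ 4 = -4 := by
      rw [show (-1 + Complex.I) ^ 4 = ((-1 + Complex.I) ^ 2) ^ 2 by ring, e1]
      linear_combination 4 * Complex.I_sq
    rw [show (-1 + Complex.I) ^ 8 = ((-1 + Complex.I) ^ 4) ^ 2 by ring, e2]
    norm_num
  have h2 : (-1 - Complex.I) ^ 8 = 16 := by
    have e1 : (-1 - Complex.I) ^ 2 = 2 * Complex.I := by linear_combination Complex.I_sq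
    have e2 : (-1 - Complex.I) ^ 4 = -4 := by
      rw [show (-1 - Complex.I) ^ 4 = ((-1 - Complex.I) ^ 2) ^ 2 by ring, e1]
      linear_combination 4 * Complex.I_sq
    rw [show (-1 - Complex.I) ^ 8 = ((-1 - Complex.I) ^ 4) ^ 2 by ring, e2]
    norm_num
  rw [pow_mul, pow_mul, h1, h2] at h
  have h3 : ((luc (-2) 2 (8 * m) : ℤ) : ℂ) = ((2 * 16 ^ m : ℤ) : ℂ) := by
    rw [h]; push_cast; ring
  exact_mod_cast h3

section
variable {k : Type} [Field k] [Fintype k] [DecidableEq k] [Algebra (ZMod 2) k]

lemma finrank_of_card {f : ℕ} (h : Fintype.card k = 2 ^ f) : Module.finrank (ZMod 2) k = f := by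
  have h1 := Module.card_eq_pow_finrank (K := ZMod 2) (V := k)
  rw [ZMod.card, h] at h1
  exact (Nat.pow_right_injective le_rfl h1).symm

lemma ch_one {f : ℕ} (h : Fintype.card k = 2 ^ f) : ch (1 : k) = if Even f then 1 else -1 := by
  unfold ch
  have h1 : Algebra.trace (ZMod 2) k 1 = (f : ZMod 2) := by
    have h2 := Algebra.trace_algebraMap (R := ZMod 2) (S := k) 1
    rw [map_one, finrank_of_card h] at h2
    rw [h2, nsmul_eq_mul, mul_one]
  rw [h1]
  have h3 : ((f : ZMod 2) = 0) ↔ Even f := by
    rw [ZMod.natCast_eq_zero_iff, even_iff_two_dvd]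
  simp only [h3]

lemma cub3_zero (h : Fintype.card k = 2) : ch (1 : k) * cub3 k = 1 := by
  have h2 := two_zero (k := k)
  have h1 : univ.filter (fun z : k => z ≠ 0 ∧ z + z ^ 4 = 0) = {1} := by
    ext z
    rw [mem_filter, mem_singleton]
    have hz : z ^ 2 = z := by
      have := FiniteField.pow_card z
      rwa [h] at this
    constructor
    · rintro ⟨-, h0, -⟩
      have : z * (z - 1) = 0 := by linear_combination hz
      rcases mul_eq_zero.1 this with h | h
      · exact absurd h h0
      · exact sub_eq_zero.1 h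
    · rintro rfl
      exact ⟨mem_univ _, one_ne_zero, by linear_combination h2⟩
  unfold cub3
  rw [h1, sum_singleton]
  have := ch_one (k := k) (f := 1) (by rw [h]; norm_num)
  rw [this]
  decide

lemma cub3_one (h : Fintype.card k = 4) : ch (1 : k) * cub3 k = -1 := by
  have h2 := two_zero (k := k)
  have h1 : univ.filter (fun z : k => z ≠ 0 ∧ z + z ^ 4 = 0) = univ.erase 0 := by
    ext z
    rw [mem_filter, mem_erase]
    have hz : z ^ 4 = z := by
      have := FiniteField.pow_card z
      rwa [h] at this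
    constructor
    · rintro ⟨-, h0, -⟩
      exact ⟨h0, mem_univ _⟩
    · rintro ⟨h0, -⟩
      exact ⟨mem_univ _, h0, by linear_combination hz + z * h2⟩
  unfold cub3
  rw [h1]
  have h3 := ortho (1 : k)
  rw [if_neg one_ne_zero] at h3
  simp only [mul_one] at h3
  rw [← Finset.add_sum_erase univ _ (mem_univ (0 : k)), ch_zero] at h3
  have := ch_one (k := k) (f := 2) (by rw [h]; norm_num)
  rw [this, if_pos (by decide)]
  linarith

lemma cub3_two {i : ℕ} (h : Fintype.card k = 2 ^ (2 ^ (i + 2))) : ch (1 : k) * cub3 k = 3 := by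
  have h2 := two_zero (k := k)
  haveI : CharP k 2 := charP_of_injective_algebraMap (algebraMap (ZMod 2) k).injective 2
  have hone := ch_one h
  rw [if_pos (by
    rw [pow_succ]
    exact even_two.mul_left _)] at hone
  rw [hone, one_mul]
  -- the character is trivial on the cube roots of unity
  have hch : ∀ z : k, z + z ^ 4 = 0 → ch z = 1 := by
    intro z hz
    have hz4 : z ^ 4 = z := by linear_combination hz - z * h2
    have h3 : ∀ m : ℕ, z ^ (2 ^ (2 * m)) = z := by
      intro m
      induction m with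
      | zero => simp
      | succ m ih =>
        rw [show 2 ^ (2 * (m + 1)) = 2 ^ (2 * m) * 4 by ring, pow_mul, ih, hz4]
    have h4 : ∀ m : ℕ, ∑ i ∈ range (2 * m), z ^ (2 ^ i) = m * (z + z ^ 2) := by
      intro m
      induction m with
      | zero => simp
      | succ m ih =>
        rw [show 2 * (m + 1) = 2 * m + 1 + 1 by ring, sum_range_succ, sum_range_succ, ih,
          show 2 ^ (2 * m + 1) = 2 ^ (2 * m) * 2 by ring, pow_mul z, h3 m]
        push_cast
        ring
    have h5 := FiniteField.algebraMap_trace_eq_sum_pow (ZMod 2) k z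
    rw [finrank_of_card h, Nat.card_zmod, show 2 ^ (i + 2) = 2 * (2 * 2 ^ i) by ring, h4] at h5
    have h6 : algebraMap (ZMod 2) k (Algebra.trace (ZMod 2) k z) = 0 := by
      rw [h5]
      push_cast
      linear_combination ((2 : k) ^ i * (z + z ^ 2)) * h2
    have h7 : Algebra.trace (ZMod 2) k z = 0 := by
      apply (algebraMap (ZMod 2) k).injective
      rw [h6, map_zero]
    unfold ch
    rw [if_pos h7]
  -- three roots
  have hdvd : 3 ∣ Nat.card kˣ := by
    rw [Nat.card_eq_fintype_card, Fintype.card_units, h,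
      show 2 ^ (2 ^ (i + 2)) = 4 ^ (2 * 2 ^ i) by
        rw [show (4 : ℕ) = 2 ^ 2 by norm_num, ← pow_mul]
        congr 1
        ring]
    have := Nat.sub_dvd_pow_sub_pow 4 1 (2 * 2 ^ i)
    rwa [one_pow] at this
  haveI : Fact (Nat.Prime 3) := ⟨Nat.prime_three⟩
  obtain ⟨ζ, hζ⟩ := exists_prime_orderOf_dvd_card' 3 hdvd
  have hζ1 : IsPrimitiveRoot (ζ : k) 3 := by
    have := IsPrimitiveRoot.orderOf (ζ : k)
    rwa [orderOf_units, hζ] at this
  have hset : univ.filter (fun z : k => z ≠ 0 ∧ z + z ^ 4 = 0) = Polynomial.nthRootsFinset 3 (1 : k) := by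
    ext z
    rw [mem_filter, Polynomial.mem_nthRootsFinset (by norm_num)]
    constructor
    · rintro ⟨-, h0, h4⟩
      have : z * (z ^ 3 - 1) = 0 := by linear_combination h4 - z * h2
      rcases mul_eq_zero.1 this with h | h
      · exact absurd h h0
      · exact sub_eq_zero.1 h
    · intro h3
      refine ⟨mem_univ _, ?_, ?_⟩
      · rintro rfl
        norm_num at h3
      · linear_combination z * h3 + z * h2
  unfold cub3
  rw [Finset.sum_congr rfl (fun z hz => hch z (mem_filter.1 hz).2.2), hset, sum_const,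
    hζ1.card_nthRootsFinset]
  norm_num

end

lemma final_arith (i : ℕ) : ((2 ^ 2 ^ (i + 1) : ℕ) : ℤ) - (((2 ^ 2 ^ i : ℕ) : ℤ) ^ 2 +
    ((2 ^ 2 ^ i : ℕ) : ℤ) * (1 - (if i = 0 then 1 else if i = 1 then -1 else 3))) =
    luc (-2) 2 (2 ^ (i + 1)) := by
  match i with
  | 0 => decide
  | 1 => decide
  | i + 2 =>
    rw [if_neg (by omega), if_neg (by omega), show 2 ^ (i + 2 + 1) = 8 * 2 ^ i by ring, luc_mul8,
      show (2 : ℕ) ^ (8 * 2 ^ i) = (16 ^ 2 ^ i) ^ 2 by
        rw [show (16 : ℕ) = 2 ^ 4 by norm_num, ← pow_mul, ← pow_mul]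
        congr 1
        ring, show (2 : ℕ) ^ (2 ^ (i + 2)) = 16 ^ 2 ^ i by
        rw [show (16 : ℕ) = 2 ^ 4 by norm_num, ← pow_mul]
        congr 1
        ring]
    push_cast
    ring

theorem s_char2 : Pool.Agent.Y702.S_CHAR2 := by
  intro k _ _ j hk
  classical
  match j with
  | 0 =>
    have h2 : Fintype.card k = 2 := by rw [hk]; norm_num
    have hz : ∀ z : k, z ^ 2 = z := by
      intro z
      have := FiniteField.pow_card z
      rwa [h2] at this
    have hchar : (2 : k) = 0 := by
      have := Nat.cast_card_eq_zero k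
      rw [h2] at this
      exact_mod_cast this
    have h1 : Nat.card {x : k × k // x.2 ^ 2 + x.2 = x.1 ^ 3 + x.1 ^ 2} = 4 := by
      have e : {x : k × k // x.2 ^ 2 + x.2 = x.1 ^ 3 + x.1 ^ 2} ≃ k × k :=
        Equiv.subtypeUnivEquiv (fun x => by
          have a1 := hz x.2
          have a2 := hz x.1
          linear_combination a1 + x.2 * hchar - (x.1 + 1 + 1) * a2 - x.1 * hchar)
      rw [Nat.card_congr e, Nat.card_prod, Nat.card_eq_fintype_card, h2]
    rw [h1, h2]
    rfl
  | i + 1 =>
    let k0 := GaloisField 2 (2 ^ i)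
    haveI : Finite k0 := inferInstance
    letI : Fintype k0 := Fintype.ofFinite k0
    have hq : Fintype.card k0 = 2 ^ (2 ^ i) := by
      rw [← Nat.card_eq_fintype_card]
      exact GaloisField.card 2 (2 ^ i) (by positivity)
    obtain ⟨c, hc⟩ := exists_neg_one (k := k0) one_ne_zero
    rw [mul_one] at hc
    haveI : Fact (∀ r : k0, r ^ 2 ≠ c + 1 * r) := ⟨by
      intro r hr
      have h1 : c = r ^ 2 + r := by
        have h2 := two_zero (k := k0)
        linear_combination -hr - r * h2
      rw [h1, ch_add, ch_sq] at hc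
      nlinarith [sq_nonneg (ch r)]⟩
    letI : Fintype (QuadraticAlgebra k0 c 1) := Fintype.ofEquiv _ (QuadraticAlgebra.equivProd c 1).symm
    have hQ : Fintype.card (QuadraticAlgebra k0 c 1) = Fintype.card k := by
      rw [Fintype.card_congr (QuadraticAlgebra.equivProd c 1), Fintype.card_prod, hq, hk, ← pow_add]
      congr 1
      ring
    have e : QuadraticAlgebra k0 c 1 ≃+* k := FiniteField.ringEquivOfCardEq hQ
    have hN : Nat.card {x : k × k // x.2 ^ 2 + x.2 = x.1 ^ 3 + x.1 ^ 2} =
        Nat.card {x : QuadraticAlgebra k0 c 1 × QuadraticAlgebra k0 c 1 //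
          x.2 ^ 2 + x.2 = x.1 ^ 3 + x.1 ^ 2} := by
      refine (Nat.card_congr ((e.toEquiv.prodCongr e.toEquiv).subtypeEquiv ?_)).symm
      rintro ⟨x, y⟩
      show y ^ 2 + y = x ^ 3 + x ^ 2 ↔ (e y) ^ 2 + e y = (e x) ^ 3 + (e x) ^ 2
      rw [← map_pow, ← map_pow, ← map_pow, ← map_add, ← map_add]
      exact (e.injective.eq_iff).symm
    have hE : ch (1 : k0) * cub3 k0 = if i = 0 then 1 else if i = 1 then -1 else 3 := by
      split_ifs with h0 h1
      · exact cub3_zero (by rw [hq, h0]; norm_num)
      · exact cub3_one (by rw [hq, h1]; norm_num)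
      · obtain ⟨m, hm⟩ : ∃ m, i = m + 2 := ⟨i - 2, by omega⟩
        exact cub3_two (i := m) (by rw [hq, hm])
    rw [hN, count_quad c hc, hq, hk, hE]
    exact final_arith i

theorem s_node11 : Pool.Agent.Y702.S_NODE11 := by
  intro k _ _ _
  classical
  have h11 : (11 : k) = 0 := by exact_mod_cast CharP.cast_eq_zero k 11
  have h10 : (10 : k) ≠ 0 := by
    intro h
    have : (1 : k) = 0 := by linear_combination h11 - h
    exact one_ne_zero this
  -- shift of the node to the origin
  have e1 : {x : k × k // x.2 ^ 2 + x.2 = x.1 ^ 3 - x.1 ^ 2 - 10 * x.1 - 20} ≃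
      {w : k × k // w.2 ^ 2 = w.1 ^ 2 * (w.1 + 3)} :=
    ((Equiv.subRight (5 : k)).prodCongr (Equiv.subRight (5 : k))).subtypeEquiv (by
      rintro ⟨x, y⟩
      show y ^ 2 + y = x ^ 3 - x ^ 2 - 10 * x - 20 ↔ (y - 5) ^ 2 = (x - 5) ^ 2 * ((x - 5) + 3)
      constructor
      · intro h
        linear_combination h - ((y - 5) - (x - 5) ^ 2 - 5 * (x - 5)) * h11
      · intro h
        linear_combination h + ((y - 5) - (x - 5) ^ 2 - 5 * (x - 5)) * h11)
  -- the parametrisation by slopes
  have e2 : {w : k × k // w.2 ^ 2 = w.1 ^ 2 * (w.1 + 3)} ≃ Option {t : k // t ^ 2 ≠ 3} :=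
    { toFun := fun w => if h : w.1.1 = 0 then none else
        some ⟨w.1.2 / w.1.1, by
          have hw := w.2
          intro h3
          apply h
          rw [div_pow, hw, mul_comm, mul_div_assoc, div_self (pow_ne_zero 2 h), mul_one] at h3
          linear_combination h3⟩
      invFun := fun t => match t with
        | none => ⟨(0, 0), by simp⟩
        | some t => ⟨(t.1 ^ 2 - 3, t.1 * (t.1 ^ 2 - 3)), by simp only; ring⟩
      left_inv := by
        rintro ⟨⟨u, w⟩, hw⟩
        simp only at hw
        by_cases h : u = 0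
        · subst h
          have : w = 0 := by
            have h1 : w ^ 2 = 0 := by rw [hw]; ring
            exact pow_eq_zero_iff (two_ne_zero) |>.1 h1
          subst this
          simp
        · have h1 : (w / u) ^ 2 - 3 = u := by
            rw [div_pow, hw]
            field_simp
            ring
          simp only [h, dite_false, h1]
          ext
          · rfl
          · show w / u * u = w
            field_simp
      right_inv := by
        rintro (_ | ⟨t, ht⟩)
        · simp
        · have h1 : t ^ 2 - 3 ≠ 0 := sub_ne_zero.2 ht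
          simp only [h1, dite_false]
          congr 1
          ext
          show t * (t ^ 2 - 3) / (t ^ 2 - 3) = t
          field_simp }
  have h3 : Fintype.card {t : k // t ^ 2 = 3} = 2 := by
    rw [Fintype.card_subtype]
    have : (univ.filter (fun t : k => t ^ 2 = 3)) = {5, -5} := by
      ext t
      rw [mem_filter, mem_insert, mem_singleton]
      constructor
      · rintro ⟨-, h⟩
        have : (t - 5) * (t + 5) = 0 := by linear_combination h - 2 * h11
        rcases mul_eq_zero.1 this with h | h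
        · exact Or.inl (sub_eq_zero.1 h)
        · exact Or.inr (by linear_combination h)
      · rintro (h | h)
        · exact ⟨mem_univ _, by rw [h]; linear_combination 2 * h11⟩
        · exact ⟨mem_univ _, by rw [h]; linear_combination 2 * h11⟩
    rw [this, card_pair]
    intro h
    apply h10
    linear_combination h
  have h4 := Fintype.card_subtype_compl (fun t : k => t ^ 2 = 3)
  rw [h3] at h4
  have h5 : 2 ≤ Fintype.card k := by
    rw [← h3]
    exact Fintype.card_subtype_le _
  rw [Nat.card_congr (e1.trans e2), Nat.card_eq_fintype_card, Fintype.card_option]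
  have h6 : Fintype.card {t : k // t ^ 2 ≠ 3} = Fintype.card k - 2 := h4
  rw [h6]
  omega

end Pool.Agent.Y18.JT
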