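import Pool.Agent.W165.CE.FF
import Pool.Agent.Y702.Stm

/-!
`S_CUBEXT` of helper702: the number of points of `y² = x³ + a x² + b x + c` over the extensions of a
prime field (after `W165/CE/FF.lean`, where `a = 0`).
-/

set_option autoImplicit false

namespace Pool.Agent.Y18.JT

open Polynomial Finset
open Pool.Agent.H341R2.Sharp
open Pool.Agent.H82R3.EK (luc luc_eq sum_Mon_two card_points sum_qc_sub)
open W165.CE (A_two_split T_luc)

section
variable {F : Type*} [Field F] [Fintype F] [DecidableEq F]

/-- the cubic `X³ + a X² + b X + c` -/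
noncomputable def cubp (a b c : F) : F[X] := X ^ 3 + C a * X ^ 2 + C b * X + C c

omit [Fintype F] [DecidableEq F] in
lemma cubp_natDegree (a b c : F) : (cubp a b c).natDegree = 3 := by
  have := natDegree_cubic (R := F) (a := 1) (b := a) (c := b) (d := c) one_ne_zero
  unfold cubp
  rwa [C_1, one_mul] at this

omit [Fintype F] [DecidableEq F] in
lemma cubp_monic (a b c : F) : (cubp a b c).Monic := by
  have := leadingCoeff_cubic (R := F) (a := 1) (b := a) (c := b) (d := c) one_ne_zero
  unfold cubp Monic
  rwa [C_1, one_mul] at this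

omit [Fintype F] [DecidableEq F] in
lemma eval₂_cubp {S : Type*} [CommRing S] (φ : F →+* S) (a b c : F) (x : S) :
    eval₂ φ x (cubp a b c) = x ^ 3 + φ a * x ^ 2 + φ b * x + φ c := by
  unfold cubp
  simp only [eval₂_add, eval₂_mul, eval₂_pow, eval₂_X, eval₂_C]

omit [Fintype F] [DecidableEq F] in
lemma aeval_cubp {S : Type*} [CommRing S] [Algebra F S] (a b c : F) (x : S) :
    aeval x (cubp a b c) = x ^ 3 + algebraMap F S a * x ^ 2 + algebraMap F S b * x +
      algebraMap F S c := by
  rw [aeval_def, eval₂_cubp]

/-- the discriminant -/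
def dsc (a b c : F) : F := a ^ 2 * b ^ 2 - 4 * b ^ 3 - 4 * a ^ 3 * c - 27 * c ^ 2 + 18 * a * b * c

lemma A_two_root (hF : ringChar F ≠ 2) (a b c e : F) (he : e ^ 3 + a * e ^ 2 + b * e + c = 0)
    (hD : dsc a b c ≠ 0) : A (cubp a b c) 2 = Fintype.card F := by
  have hc : c = -e ^ 3 - a * e ^ 2 - b * e := by linear_combination he
  have h1 : cubp a b c = (X - C e) * (X ^ 2 + C (a + e) * X + C (b + (a + e) * e)) := by
    unfold cubp
    rw [hc]
    simp only [C_sub, C_neg, C_mul, C_add, C_pow]
    ring
  have h2 : dsc a b c = (e ^ 2 + (a + e) * e + (b + (a + e) * e)) ^ 2 *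
      ((a + e) ^ 2 - 4 * (b + (a + e) * e)) := by
    unfold dsc
    rw [hc]; ring
  rw [h2] at hD
  have h3 := left_ne_zero_of_mul hD
  have h4 := right_ne_zero_of_mul hD
  rw [h1]
  exact A_two_split hF e (a + e) (b + (a + e) * e) (fun h => h3 (by rw [h]; ring)) h4

end

/-- the general case -/
theorem A_two_cub {F : Type} [Field F] [Fintype F] [DecidableEq F] (hF : ringChar F ≠ 2)
    (a b c : F) (hD : dsc a b c ≠ 0) : A (cubp a b c) 2 = Fintype.card F := by
  classical
  by_cases hroot : ∃ e : F, e ^ 3 + a * e ^ 2 + b * e + c = 0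
  · obtain ⟨e, he⟩ := hroot
    exact A_two_root hF a b c e he hD
  · push Not at hroot
    have hir : Irreducible (cubp a b c) := by
      refine (irreducible_iff_roots_eq_zero_of_degree_le_three (by rw [cubp_natDegree]; norm_num)
        (by rw [cubp_natDegree])).2 ?_
      rw [Multiset.eq_zero_iff_forall_notMem]
      intro e he
      rw [mem_roots (cubp_monic a b c).ne_zero, IsRoot.def] at he
      apply hroot e
      rw [← he]
      unfold cubp
      simp
    haveI : Fact (Irreducible (cubp a b c)) := ⟨hir⟩
    let E := AdjoinRoot (cubp a b c)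
    have hfr : Module.finrank F E = 3 := by
      have := (AdjoinRoot.powerBasis hir.ne_zero).finrank
      rw [this, AdjoinRoot.powerBasis_dim, cubp_natDegree]
    haveI : Module.Finite F E := Module.finite_of_finrank_pos (by rw [hfr]; norm_num)
    haveI : Finite E := Module.finite_of_finite F
    letI : Fintype E := Fintype.ofFinite E
    have hE : ringChar E ≠ 2 := by
      rwa [← Algebra.ringChar_eq F E]
    set a' : E := algebraMap F E a with ha'
    set b' : E := algebraMap F E b with hb'
    set c' : E := algebraMap F E c with hc'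
    have hD' : dsc a' b' c' ≠ 0 := by
      intro h
      apply hD
      apply (algebraMap F E).injective
      rw [map_zero, ← h]
      unfold dsc
      simp only [ha', hb', hc', map_add, map_sub, map_mul, map_pow, map_ofNat]
    have hAE : A (cubp a' b' c') 2 = Fintype.card E := by
      refine A_two_root hE a' b' c' (AdjoinRoot.root (cubp a b c)) ?_ hD'
      have h1 := AdjoinRoot.eval₂_root (cubp a b c)
      rw [eval₂_cubp] at h1
      exact h1
    -- the extension of degree two of `E`
    obtain ⟨p, hp⟩ := CharP.exists E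
    haveI : Fact (Nat.Prime p) := ⟨CharP.char_is_prime E p⟩
    let E2 := FiniteField.Extension E p 2
    letI : Fintype E2 := Fintype.ofFinite E2
    have hfr2 : Module.finrank E E2 = 2 := FiniteField.finrank_extension E p 2
    letI : Algebra F E2 := ((algebraMap E E2).comp (algebraMap F E)).toAlgebra
    haveI : IsScalarTower F E E2 := IsScalarTower.of_algebraMap_eq' rfl
    have hfr6 : Module.finrank F E2 = 6 := by
      rw [← Module.finrank_mul_finrank F E E2, hfr, hfr2]
    -- comparison
    have t1 : T (cubp a' b' c') 1 = T (cubp a b c) 3 := by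
      have h1 := T_eq_sum (E := E) hE (cubp a' b' c')
      rw [Module.finrank_self] at h1
      have h2 := T_eq_sum (E := E) hF (cubp a b c)
      rw [hfr] at h2
      rw [h1, h2]
      refine Finset.sum_congr rfl fun x _ => ?_
      rw [aeval_cubp, aeval_cubp, Algebra.algebraMap_self, RingHom.id_apply, RingHom.id_apply,
        RingHom.id_apply]
    have t2 : T (cubp a' b' c') 2 = T (cubp a b c) 6 := by
      have h1 := T_eq_sum (E := E2) hE (cubp a' b' c')
      rw [hfr2] at h1
      have h2 := T_eq_sum (E := E2) hF (cubp a b c)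
      rw [hfr6] at h2
      rw [h1, h2]
      refine Finset.sum_congr rfl fun x _ => ?_
      rw [aeval_cubp, aeval_cubp, ha', hb', hc', ← IsScalarTower.algebraMap_apply,
        ← IsScalarTower.algebraMap_apply, ← IsScalarTower.algebraMap_apply]
    have l2 := T_luc hE (cubp_natDegree a' b' c') (cubp_monic a' b' c') 1
    have l3 := T_luc hF (cubp_natDegree a b c) (cubp_monic a b c) 2
    have l6 := T_luc hF (cubp_natDegree a b c) (cubp_monic a b c) 5
    norm_num at l2 l3 l6
    rw [t1, t2, hAE, l3, l6] at l2
    simp only [luc] at l2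
    have hcard : (Fintype.card E : ℤ) = (Fintype.card F : ℤ) ^ 3 := by
      have := Module.card_eq_pow_finrank (K := F) (V := E)
      rw [hfr] at this
      exact_mod_cast this
    rw [hcard] at l2
    have hcube : (A (cubp a b c) 2) ^ 3 = (Fintype.card F : ℤ) ^ 3 := by
      have h2 : 2 * (A (cubp a b c) 2) ^ 3 = 2 * (Fintype.card F : ℤ) ^ 3 := by
        linear_combination l2
      exact mul_left_cancel₀ two_ne_zero h2
    exact (Odd.strictMono_pow (by decide : Odd 3)).injective hcube

theorem s_cubext : Pool.Agent.Y702.S_CUBEXT := by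
  intro p _ hp2 a b c hD k _ _ _
  classical
  have hF : ringChar (ZMod p) ≠ 2 := by
    rw [ZMod.ringChar_zmod_n]; exact hp2
  have hd : dsc (a : ZMod p) (b : ZMod p) (c : ZMod p) ≠ 0 := by
    intro h
    apply hD
    rw [← ZMod.intCast_zmod_eq_zero_iff_dvd]
    unfold dsc at h
    push_cast
    exact h
  have key : ∀ {E : Type} [Field E] [Fintype E] [Algebra (ZMod p) E] [DecidableEq E],
      (Fintype.card E : ℤ) - Nat.card {x : E × E //
        x.2 ^ 2 = x.1 ^ 3 + (a : E) * x.1 ^ 2 + (b : E) * x.1 + (c : E)} =
      - T (cubp (a : ZMod p) (b : ZMod p) (c : ZMod p)) (Module.finrank (ZMod p) E) := by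
    intro E _ _ _ _
    have hE : ringChar E ≠ 2 := by
      rwa [← Algebra.ringChar_eq (ZMod p) E]
    rw [card_points hE (fun x => x ^ 3 + (a : E) * x ^ 2 + (b : E) * x + (c : E)),
      T_eq_sum (E := E) hF]
    have : ∀ x : E, aeval x (cubp (a : ZMod p) (b : ZMod p) (c : ZMod p)) =
        x ^ 3 + (a : E) * x ^ 2 + (b : E) * x + (c : E) := by
      intro x
      rw [aeval_cubp, map_intCast, map_intCast, map_intCast]
    simp_rw [this]
    ring
  have h1 := key (E := ZMod p)
  rw [Module.finrank_self, ZMod.card] at h1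
  rw [key (E := k), h1]
  have hpos : 0 < Module.finrank (ZMod p) k := Module.finrank_pos
  obtain ⟨n, hn⟩ := Nat.exists_eq_succ_of_ne_zero hpos.ne'
  rw [hn, Nat.succ_eq_add_one, T_luc hF (cubp_natDegree _ _ _) (cubp_monic _ _ _) n,
    A_two_cub hF _ _ _ hd, ZMod.card]
  ring

end Pool.Agent.Y18.JT
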