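import Mathlib

/-!
Number of points of `y² + y = x³ + x²` over finite fields of characteristic two with `2 ^ (2 ^ j)`
elements, by the descent to the subfield of index two.
-/

set_option autoImplicit false

open Finset

namespace Pool.Agent.Y18.JT

lemma zmod_sq (a : ZMod 2) : a ^ 2 = a := by
  revert a
  decide

section
variable {k : Type} [Field k] [Fintype k] [DecidableEq k] [Algebra (ZMod 2) k]

/-- the additive character `(-1)^Tr(x)` -/
noncomputable def ch (x : k) : ℤ := if Algebra.trace (ZMod 2) k x = 0 then 1 else -1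

lemma ch_zero : ch (0 : k) = 1 := by simp [ch]

lemma ch_add (x y : k) : ch (x + y) = ch x * ch y := by
  unfold ch
  rw [map_add]
  generalize Algebra.trace (ZMod 2) k x = a
  generalize Algebra.trace (ZMod 2) k y = b
  revert a b
  decide

omit [Fintype k] [DecidableEq k] in
lemma two_zero : (2 : k) = 0 := by
  have h := map_ofNat (algebraMap (ZMod 2) k) 2
  rw [← h, show (2 : ZMod 2) = 0 by decide, map_zero]

lemma ch_sq (x : k) : ch (x ^ 2) = ch x := by
  haveI : CharP k 2 := charP_of_injective_algebraMap (algebraMap (ZMod 2) k).injective 2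
  haveI : Fact (Nat.Prime 2) := ⟨Nat.prime_two⟩
  have h1 := FiniteField.algebraMap_trace_eq_sum_pow (ZMod 2) k x
  have h2 := FiniteField.algebraMap_trace_eq_sum_pow (ZMod 2) k (x ^ 2)
  have h3 : Algebra.trace (ZMod 2) k (x ^ 2) = Algebra.trace (ZMod 2) k x := by
    apply (algebraMap (ZMod 2) k).injective
    have h4 : algebraMap (ZMod 2) k (Algebra.trace (ZMod 2) k (x ^ 2)) =
        (algebraMap (ZMod 2) k (Algebra.trace (ZMod 2) k x)) ^ 2 := by
      rw [h2, h1, sum_pow_char]
      refine Finset.sum_congr rfl fun i _ => ?_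
      rw [← pow_mul, ← pow_mul, mul_comm]
    rw [h4, ← map_pow]
    rw [zmod_sq]
  unfold ch
  rw [h3]

lemma exists_neg_one {a : k} (ha : a ≠ 0) : ∃ b : k, ch (b * a) = -1 := by
  have htr := (traceForm_nondegenerate (ZMod 2) k).1 a
  by_contra! hf
  apply ha
  apply htr
  intro b
  rw [Algebra.traceForm_apply]
  have h := hf b
  unfold ch at h
  by_contra h1
  rw [mul_comm] at h1
  rw [if_neg h1] at h
  exact h rfl

lemma ortho (a : k) : ∑ u : k, ch (u * a) = if a = 0 then (Fintype.card k : ℤ) else 0 := by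
  split_ifs with h
  · rw [h]
    simp [ch_zero]
  · obtain ⟨b, hb⟩ := exists_neg_one h
    have h1 : ∑ u : k, ch (u * a) = ∑ u : k, ch ((u + b) * a) :=
      (Fintype.sum_equiv (Equiv.addRight b) _ _ (fun u => rfl)).symm
    have h2 : ∑ u : k, ch ((u + b) * a) = - ∑ u : k, ch (u * a) := by
      rw [← Finset.sum_neg_distrib]
      refine Finset.sum_congr rfl fun u _ => ?_
      rw [add_mul, ch_add, hb]
      ring
    rw [h2] at h1
    linarith

/-- squaring is a permutation -/
lemma sum_sq (g : k → ℤ) : ∑ v : k, g v = ∑ z : k, g (z ^ 2) := by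
  haveI : CharP k 2 := charP_of_injective_algebraMap (algebraMap (ZMod 2) k).injective 2
  haveI : Fact (Nat.Prime 2) := ⟨Nat.prime_two⟩
  have hinj : Function.Injective (fun z : k => z ^ 2) := by
    intro x y h
    exact frobenius_inj k 2 h
  have hb : Function.Bijective (fun z : k => z ^ 2) := Finite.injective_iff_bijective.1 hinj
  exact (Fintype.sum_equiv (Equiv.ofBijective _ hb) _ _ (fun u => rfl)).symm

/-- Artin-Schreier counting -/
lemma count_AS (d : k) : ∑ s : k, (if s ^ 2 + s = d then (1 : ℤ) else 0) = 1 + ch d := by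
  have h2 := two_zero (k := k)
  have hq : (0 : ℤ) < Fintype.card k := by exact_mod_cast Fintype.card_pos
  have h0 : ∀ x y : k, x + y = 0 ↔ x = y := by
    intro x y
    constructor
    · intro h
      linear_combination h - y * h2
    · intro h
      linear_combination h + y * h2
  have h1 : (Fintype.card k : ℤ) * ∑ s : k, (if s ^ 2 + s = d then (1 : ℤ) else 0) =
      (Fintype.card k : ℤ) * (1 + ch d) := by
    calc (Fintype.card k : ℤ) * ∑ s : k, (if s ^ 2 + s = d then (1 : ℤ) else 0)
        = ∑ s : k, ∑ a : k, ch (a * (s ^ 2 + s + d)) := by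
          rw [Finset.mul_sum]
          refine Finset.sum_congr rfl fun s _ => ?_
          rw [ortho]
          by_cases h : s ^ 2 + s = d
          · rw [if_pos h, if_pos ((h0 _ _).2 h), mul_one]
          · rw [if_neg h, if_neg (fun h' => h ((h0 _ _).1 h')), mul_zero]
      _ = ∑ a : k, ∑ s : k, ch (a * (s ^ 2 + s + d)) := Finset.sum_comm
      _ = ∑ b : k, ∑ s : k, ch (b ^ 2 * (s ^ 2 + s + d)) := sum_sq _
      _ = ∑ b : k, ch (b ^ 2 * d) * (if b + b ^ 2 = 0 then (Fintype.card k : ℤ) else 0) := by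
          refine Finset.sum_congr rfl fun b _ => ?_
          rw [← ortho, Finset.mul_sum]
          refine Finset.sum_congr rfl fun s _ => ?_
          have e : b ^ 2 * (s ^ 2 + s + d) = (b * s) ^ 2 + (s * b ^ 2 + b ^ 2 * d) := by ring
          rw [e, ch_add, ch_sq, ch_add, mul_add, ch_add, mul_comm s b]
          ring
      _ = ∑ b ∈ ({0, 1} : Finset k), ch (b ^ 2 * d) * (Fintype.card k : ℤ) := by
          rw [← Finset.sum_subset (Finset.subset_univ ({0, 1} : Finset k))]
          · refine Finset.sum_congr rfl fun b hb => ?_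
            rw [Finset.mem_insert, Finset.mem_singleton] at hb
            rw [if_pos]
            rcases hb with rfl | rfl
            · ring
            · linear_combination h2
          · intro b _ hb
            rw [if_neg, mul_zero]
            intro h
            apply hb
            rw [Finset.mem_insert, Finset.mem_singleton]
            have h3 : b * (b - 1) = 0 := by linear_combination h - b * h2
            rcases mul_eq_zero.1 h3 with h | h
            · exact Or.inl h
            · exact Or.inr (sub_eq_zero.1 h)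
      _ = _ := by
          rw [Finset.sum_pair zero_ne_one]
          rw [zero_pow two_ne_zero, zero_mul, ch_zero, one_pow, one_mul]
          ring
  exact mul_left_cancel₀ hq.ne' h1

/-- the sum over the cube roots of unity -/
noncomputable def cub3 (k : Type) [Field k] [Fintype k] [DecidableEq k] [Algebra (ZMod 2) k] : ℤ :=
  ∑ z ∈ univ.filter (fun z : k => z ≠ 0 ∧ z + z ^ 4 = 0), ch z

/-- The count over the quadratic extension. -/
theorem count_quad (c : k) (hc : ch c = -1) :
    (Nat.card {x : QuadraticAlgebra k c 1 × QuadraticAlgebra k c 1 //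
      x.2 ^ 2 + x.2 = x.1 ^ 3 + x.1 ^ 2} : ℤ) =
      (Fintype.card k : ℤ) ^ 2 + Fintype.card k * (1 - ch (1 : k) * cub3 k) := by
  have h2 := two_zero (k := k)
  -- parametrisation
  let e : {x : QuadraticAlgebra k c 1 × QuadraticAlgebra k c 1 //
      x.2 ^ 2 + x.2 = x.1 ^ 3 + x.1 ^ 2} ≃
      {w : (k × k) × (k × k) // (w.2.2 ^ 2 + w.2.2 = w.1.1 ^ 2 * w.1.2 + w.1.1 * w.1.2 ^ 2 +
        (1 + c) * w.1.2 ^ 3 + w.1.2 ^ 2) ∧ (w.2.1 ^ 2 + w.2.1 = w.2.2 ^ 2 * c + (w.1.1 ^ 3 +
          c * w.1.1 * w.1.2 ^ 2 + c * w.1.2 ^ 3 + w.1.1 ^ 2 + c * w.1.2 ^ 2))} :=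
    (((QuadraticAlgebra.equivProd c 1).prodCongr (QuadraticAlgebra.equivProd c 1)).subtypeEquiv
      (by
        rintro ⟨⟨u, v⟩, ⟨r, s⟩⟩
        rw [QuadraticAlgebra.ext_iff]
        simp only [pow_succ, pow_zero, one_mul, QuadraticAlgebra.re_add, QuadraticAlgebra.im_add,
          QuadraticAlgebra.re_mul, QuadraticAlgebra.im_mul, Equiv.prodCongr_apply, Prod.map,
          QuadraticAlgebra.equivProd, Equiv.coe_fn_mk]
        constructor
        · rintro ⟨ha, hb⟩
          refine ⟨?_, ?_⟩
          · linear_combination hb - (r * s) * h2 + (u * v + u * v ^ 2 + u ^ 2 * v) * h2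
          · linear_combination ha - (c * s ^ 2) * h2 + (c * u * v ^ 2) * h2
        · rintro ⟨ha, hb⟩
          refine ⟨?_, ?_⟩
          · linear_combination hb + (c * s ^ 2) * h2 - (c * u * v ^ 2) * h2
          · linear_combination ha + (r * s) * h2 - (u * v + u * v ^ 2 + u ^ 2 * v) * h2))
  rw [Nat.card_congr e, Nat.card_eq_fintype_card, Fintype.card_subtype, Finset.card_filter]
  push_cast
  rw [Fintype.sum_prod_type, Fintype.sum_prod_type]
  have hin : ∀ u v : k, (∑ y : k × k, (if ((y.2 ^ 2 + y.2 = u ^ 2 * v + u * v ^ 2 +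
        (1 + c) * v ^ 3 + v ^ 2) ∧ (y.1 ^ 2 + y.1 = y.2 ^ 2 * c + (u ^ 3 +
          c * u * v ^ 2 + c * v ^ 3 + u ^ 2 + c * v ^ 2))) then (1 : ℤ) else 0)) =
      1 + ch (u ^ 2 * v + u * v ^ 2 + (1 + c) * v ^ 3 + v ^ 2) := by
    intro u v
    generalize hα : u ^ 2 * v + u * v ^ 2 + (1 + c) * v ^ 3 + v ^ 2 = α
    generalize hβ : u ^ 3 + c * u * v ^ 2 + c * v ^ 3 + u ^ 2 + c * v ^ 2 = β
    rw [Fintype.sum_prod_type_right]
    have h3 : ∀ s : k, (∑ r : k, (if ((s ^ 2 + s = α) ∧ (r ^ 2 + r = s ^ 2 * c + β)) then (1 : ℤ)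
        else 0)) = (if s ^ 2 + s = α then (1 : ℤ) else 0) +
          (if s ^ 2 + s = α then ch (s ^ 2 * c + β) else 0) := by
      intro s
      by_cases hs : s ^ 2 + s = α
      · simp only [hs, true_and, if_true]
        exact count_AS _
      · simp [hs]
    rw [Finset.sum_congr rfl (fun s _ => h3 s), Finset.sum_add_distrib, count_AS]
    have h4 : ∑ s : k, (if s ^ 2 + s = α then ch (s ^ 2 * c + β) else 0) = 0 := by
      have h5 : ∑ s : k, (if s ^ 2 + s = α then ch (s ^ 2 * c + β) else 0) =
          ∑ s : k, (if (s + 1) ^ 2 + (s + 1) = α then ch ((s + 1) ^ 2 * c + β) else 0) :=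
        (Fintype.sum_equiv (Equiv.addRight (1 : k)) _ _ (fun u => rfl)).symm
      have h6 : ∑ s : k, (if (s + 1) ^ 2 + (s + 1) = α then ch ((s + 1) ^ 2 * c + β) else 0) =
          - ∑ s : k, (if s ^ 2 + s = α then ch (s ^ 2 * c + β) else 0) := by
        rw [← Finset.sum_neg_distrib]
        refine Finset.sum_congr rfl fun s _ => ?_
        have e1 : (s + 1) ^ 2 + (s + 1) = s ^ 2 + s := by linear_combination (s + 1) * h2
        have e2 : (s + 1) ^ 2 * c + β = (s ^ 2 * c + β) + c := by linear_combination (s * c) * h2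
        rw [e1, e2, ch_add, hc]
        split_ifs
        · ring
        · ring
      rw [h6] at h5
      linarith
    rw [h4, add_zero]
  simp only at hin ⊢
  rw [Finset.sum_congr rfl (fun u _ => Finset.sum_congr rfl (fun v _ => hin u v)), Finset.sum_comm]
  simp only [Finset.sum_add_distrib]
  have h7 : ∑ v : k, ∑ u : k, ch (u ^ 2 * v + u * v ^ 2 + (1 + c) * v ^ 3 + v ^ 2) =
      ∑ z : k, ch ((1 + c) * z ^ 6 + z ^ 4) * (if z + z ^ 4 = 0 then (Fintype.card k : ℤ) else 0) := by
    rw [sum_sq]
    refine Finset.sum_congr rfl fun z _ => ?_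
    rw [← ortho, Finset.mul_sum]
    refine Finset.sum_congr rfl fun u _ => ?_
    have e1 : u ^ 2 * z ^ 2 + u * (z ^ 2) ^ 2 + (1 + c) * (z ^ 2) ^ 3 + (z ^ 2) ^ 2 =
        (u * z) ^ 2 + (u * z ^ 4 + ((1 + c) * z ^ 6 + z ^ 4)) := by ring
    rw [e1, ch_add, ch_sq, ch_add, mul_add, ch_add (u * z)]
    ring
  rw [h7]
  have h8 : ∑ z : k, ch ((1 + c) * z ^ 6 + z ^ 4) *
      (if z + z ^ 4 = 0 then (Fintype.card k : ℤ) else 0) =
      Fintype.card k * (1 - ch (1 : k) * cub3 k) := by
    have h9 : ∀ z : k, ch ((1 + c) * z ^ 6 + z ^ 4) *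
        (if z + z ^ 4 = 0 then (Fintype.card k : ℤ) else 0) =
        (if z = 0 then (Fintype.card k : ℤ) else 0) -
        (if z ≠ 0 ∧ z + z ^ 4 = 0 then (Fintype.card k : ℤ) * ch (1 : k) * ch z else 0) := by
      intro z
      by_cases hz : z = 0
      · subst hz
        simp [ch_zero]
      · by_cases h4 : z + z ^ 4 = 0
        · have h3 : z ^ 3 = 1 := by
            have : z * (z ^ 3 - 1) = 0 := by linear_combination h4 - z * h2
            rcases mul_eq_zero.1 this with h | h
            · exact absurd h hz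
            · exact sub_eq_zero.1 h
          have e1 : (1 + c) * z ^ 6 + z ^ 4 = 1 + c + z := by
            linear_combination ((1 + c) * (z ^ 3 + 1) + z) * h3
          rw [e1, ch_add, ch_add, hc, if_pos h4, if_neg hz, if_pos ⟨hz, h4⟩]
          ring
        · rw [if_neg h4, if_neg hz, if_neg (fun h => h4 h.2)]
          ring
    rw [Finset.sum_congr rfl (fun z _ => h9 z), Finset.sum_sub_distrib, Finset.sum_ite_eq' univ,
      if_pos (mem_univ _), ← Finset.sum_filter, ← Finset.mul_sum]
    unfold cub3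
    ring
  rw [h8]
  simp
  ring

end

end Pool.Agent.Y18.JT
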